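import Mathlib
import Pool.Agent.H159R3.Toric.Orbit

/-!
Projective varieties given by few monomials that are high powers: those with a Zariski dense entire
curve are the closures of torus orbits.
-/

namespace Pool.Agent.Results.MP_1209e6_ag.PowerSparseVarieties

open MvPolynomial Pool.Agent.H159R3 Pool.Agent.H159R3.Toric Pool.Agent.H159R3.Exp

theorem result {n : ℕ} {ι : Type} (F : ι → MvPolynomial (Fin (n + 1)) ℂ)
    (hF : ∀ i, ∃ d, (F i).IsHomogeneous d) (hC : ∀ i, GGL.PowerSparse (F i)) :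
    ((∃ f : ℂ → Fin (n + 1) → ℂ, Differentiable ℂ f ∧ (∀ z, f z ≠ 0) ∧ DenseIn F f) ↔
      OrbitClosure F) ∧
    ∀ f : ℂ → Fin (n + 1) → ℂ, Differentiable ℂ f → (∀ z, f z ≠ 0) →
      (∀ z i, eval (f z) (F i) = 0) →
      ∃ (N : ℕ) (p : Fin (n + 1) → ℂ) (B : Fin (n + 1) → Fin N → ℕ), p ≠ 0 ∧
        (∀ i, aeval (mono p B) (F i) = 0) ∧
        ∀ (G : MvPolynomial (Fin (n + 1)) ℂ) (d : ℕ), G.IsHomogeneous d →
          aeval (mono p B) G = 0 → ∀ z, eval (f z) G = 0 :=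
  ⟨brody_special F hF hC, fun f hfd hf0 hfF => orbit F hF hC f hfd hf0 hfF⟩

end Pool.Agent.Results.MP_1209e6_ag.PowerSparseVarieties
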