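import Mathlib
import Pool.Agent.H159R3.Exp.Unirational

/-!
A projective variety is unirational if and only if it has a Zariski dense entire curve of exponential
type.
-/

namespace Pool.Agent.Results.MP_1209e6_ag.UnirationalExponential

open MvPolynomial Pool.Agent.H159R3.Exp

theorem result {n : ℕ} {ι : Type} (F : ι → MvPolynomial (Fin (n + 1)) ℂ)
    (hF : ∀ i, ∃ d, (F i).IsHomogeneous d) :
    (Unirational F ↔ ∃ r : ℂ → Fin (n + 1) → ℂ, ExpPoly r ∧ DenseIn F r) ∧
      ((∃ f : ℂ → Fin (n + 1) → ℂ, Differentiable ℂ f ∧ ExpTypeP f ∧ DenseIn F f) →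
        Unirational F) :=
  unirational_iff F hF

end Pool.Agent.Results.MP_1209e6_ag.UnirationalExponential
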