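import Mathlib
import Pool.Agent.H159R3.War.Brody

/-!
Projective varieties cut out by forms of small Waring rank with a Zariski dense entire curve are
linear.
-/

namespace Pool.Agent.Results.MP_1209e6_ag.WaringVarieties

open MvPolynomial Pool.Agent.H159R3.War Pool.Agent.H159R3.Exp

theorem result {n : ℕ} {ι : Type} (F : ι → MvPolynomial (Fin (n + 1)) ℂ)
    (hF : ∀ i, SmallWaring (F i)) :
    ((∃ f : ℂ → Fin (n + 1) → ℂ, Differentiable ℂ f ∧ (∀ z, f z ≠ 0) ∧ DenseIn F f) ↔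
      ∃ Λ, IsLinear F Λ) ∧
    ∀ f : ℂ → Fin (n + 1) → ℂ, Differentiable ℂ f → (∀ z i, eval (f z) (F i) = 0) →
      ∀ x ∈ Submodule.span ℂ (Set.range f), ∀ i, eval x (F i) = 0 :=
  ⟨brody F hF, fun f hf hfF x hx i => span_sub F hF f hf hfF x hx i⟩

end Pool.Agent.Results.MP_1209e6_ag.WaringVarieties
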